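import Pool.Agent.H84.FK.Targets2

set_option autoImplicit false

namespace Pool.Agent.H53.FKK2C

open Pool.Agent.H84.FK

theorem fix_conj_ncard {G : Type} [Group G] (J : Subgroup G) (k f : G) :
    {c : G ⧸ J | (k * f * k⁻¹) • c = c}.ncard = {c : G ⧸ J | f • c = c}.ncard := by
  have h : {c : G ⧸ J | (k * f * k⁻¹) • c = c} = (fun c => k • c) '' {c : G ⧸ J | f • c = c} := by
    ext c
    simp only [Set.mem_ofPred_eq, Set.mem_image]
    constructor
    · intro hc
      refine ⟨k⁻¹ • c, ?_, by simp⟩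
      rw [mul_smul, mul_smul] at hc
      calc f • k⁻¹ • c = k⁻¹ • (k • f • k⁻¹ • c) := by simp
        _ = k⁻¹ • c := by rw [hc]
    · rintro ⟨d, hd, rfl⟩
      rw [mul_smul, mul_smul, inv_smul_smul, hd]
  rw [h]
  exact Set.ncard_image_of_injective _ (MulAction.injective k)

theorem four {G : Type} [Group G] (P : G → Prop) (hP : ∀ u v, P u → P v → P (u * v)) (x f : G)
    (hx : x * x = 1) (hf : f * f = 1) (_hc : f * x = x * f) (y1 y2 : G)
    (h1 : y1 = x ∨ y1 = f ∨ y1 = x * f) (h2 : y2 = x ∨ y2 = f ∨ y2 = x * f) (hne : y1 ≠ y2)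
    (p1 : P y1) (p2 : P y2) : P x ∧ P f := by
  have e1 : x * (x * f) = f := by rw [← mul_assoc, hx, one_mul]
  have e2 : (x * f) * f = x := by rw [mul_assoc, hf, mul_one]
  rcases h1 with h | h | h <;> rcases h2 with h' | h' | h'
  · exact absurd (h.trans h'.symm) hne
  · rw [h] at p1; rw [h'] at p2; exact ⟨p1, p2⟩
  · rw [h] at p1; rw [h'] at p2
    have := hP _ _ p1 p2
    rw [e1] at this
    exact ⟨p1, this⟩
  · rw [h] at p1; rw [h'] at p2; exact ⟨p2, p1⟩
  · exact absurd (h.trans h'.symm) hne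
  · rw [h] at p1; rw [h'] at p2
    have := hP _ _ p2 p1
    rw [e2] at this
    exact ⟨this, p1⟩
  · rw [h] at p1; rw [h'] at p2
    have := hP _ _ p2 p1
    rw [e1] at this
    exact ⟨p2, this⟩
  · rw [h] at p1; rw [h'] at p2
    have := hP _ _ p1 p2
    rw [e2] at this
    exact ⟨this, p2⟩
  · exact absurd (h.trans h'.symm) hne

theorem pf_k2c (hHALF : T_HALF) (hIDX2 : T_IDX2) (hOVS : T_OVS) (hS4 : T_S4) (hD3 : T_D3)
    (hD4 : T_D4) : T_K2C := by
  intro G _ A A0 B B0 J hce hodd hJ hty R hRJ hRn hR2 hx1 hRind hb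
  obtain ⟨b0, hb0, x0, hx0R, hx0A, hbx⟩ := hb
  have := hce.fin
  obtain ⟨-, hH2⟩ := hHALF G A A0 B B0 J hce hJ hty
  have hJsol := (hOVS G A A0 B B0 hce J hJ.le hJ.ne).1
  have hidx := (hIDX2 G A A0 B B0 hce J hJ.ne hJsol).2
  have hB0B : B0 ≤ B := hce.twoB.1
  have hA0A : A0 ≤ A := hce.twoA.1
  have hB0J : B0 ≤ J := hB0B.trans hJ.le
  have hF1 : ∀ x ∈ R, x ∈ A → x ∈ A0 := fun x hx hxA => hty.1 x (hRJ hx) hxA
  have hx01 : x0 ≠ 1 := by
    rintro rfl
    exact hbx (by rw [mul_one, mul_inv_cancel]; exact A.one_mem)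
  have hRne : R ≠ ⊥ := by
    intro h
    rw [h, Subgroup.mem_bot] at hx0R
    exact hx01 hx0R
  -- consequences of HALF
  have key : ∀ f ∈ R, f ∈ A → f ≠ 1 →
      (∀ g : G, g⁻¹ * f * g ∈ J → ∃ a ∈ A0, ∃ j ∈ J, g = a * j) ∧
      2 * {c : G ⧸ J | f • c = c}.ncard = J.index := by
    intro f hfR hfA hf1
    have hX1 : Subgroup.zpowers f ≠ ⊥ := by
      rw [Ne, Subgroup.zpowers_eq_bot]; exact hf1
    have hX2 : Subgroup.zpowers f ≤ J := by
      rw [Subgroup.zpowers_le]; exact hRJ hfR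
    have hX3 : Subgroup.zpowers f ≤ A := by
      rw [Subgroup.zpowers_le]; exact hfA
    obtain ⟨h1, h2⟩ := hH2 _ hX1 hX2 hX3
    refine ⟨fun g hg => (h1 g).1 ?_, ?_⟩
    · intro x hx
      obtain ⟨k, rfl⟩ := Subgroup.mem_zpowers_iff.1 hx
      have : g⁻¹ * f ^ k * g = (g⁻¹ * f * g) ^ k := by
        have h3 := (conj_zpow (i := k) (a := g⁻¹) (b := f))
        rw [inv_inv] at h3
        exact h3.symm
      rw [this]
      exact J.zpow_mem hg k
    · rw [← h2]
      congr 1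
      rw [← Nat.card_coe_set_eq]
      apply Nat.card_congr
      refine Equiv.subtypeEquivRight fun c => ?_
      constructor
      · intro hc x hx
        obtain ⟨k, rfl⟩ := Subgroup.mem_zpowers_iff.1 hx
        have h3 : f ∈ MulAction.stabilizer G c := hc
        exact (MulAction.stabilizer G c).zpow_mem h3 k
      · intro hc
        exact hc f (Subgroup.mem_zpowers f)
  by_cases hall : ∀ β ∈ B0, ∃ f ∈ R, f ∈ A ∧ f ≠ 1 ∧ β⁻¹ * f * β ∈ A
  · -- `B0 A0 J ⊆ A0 J`
    have hstep : ∀ β ∈ B0, ∀ a ∈ A0, ∃ a' ∈ A0, ∃ j ∈ J, β * a = a' * j := by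
      intro β hβ a ha
      obtain ⟨f, hfR, hfA, hf1, hfβ⟩ := hall β hβ
      apply (key f hfR hfA hf1).1
      have h1 : β⁻¹ * f * β ∈ R := by
        have := hRn β⁻¹ (J.inv_mem (hB0J hβ)) f hfR
        rwa [inv_inv] at this
      have h2 : β⁻¹ * f * β ∈ A0 := hF1 _ h1 hfβ
      have h3 := hce.abA _ h2 _ ha
      have h4 : (β * a)⁻¹ * f * (β * a) = β⁻¹ * f * β := by
        calc (β * a)⁻¹ * f * (β * a) = a⁻¹ * ((β⁻¹ * f * β) * a) := by group
          _ = a⁻¹ * (a * (β⁻¹ * f * β)) := by rw [h3]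
          _ = β⁻¹ * f * β := by group
      rw [h4]
      exact hRJ h1
    let P : G → Prop := fun g => ∀ a ∈ A0, ∀ j ∈ J, ∃ a' ∈ A0, ∃ j' ∈ J, g * (a * j) = a' * j'
    have hPmul : ∀ g h, P g → P h → P (g * h) := by
      intro g h hg hh a ha j hj
      obtain ⟨a', ha', j', hj', e⟩ := hh a ha j hj
      obtain ⟨a'', ha'', j'', hj'', e'⟩ := hg a' ha' j' hj'
      refine ⟨a'', ha'', j'', hj'', ?_⟩
      rw [mul_assoc, e, e']
    have hPA : ∀ g ∈ A0, P g := fun g hg a ha j hj =>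
      ⟨g * a, A0.mul_mem hg ha, j, hj, by group⟩
    have hPB : ∀ g ∈ B0, P g := by
      intro g hg a ha j hj
      obtain ⟨a', ha', j', hj', e⟩ := hstep g hg a ha
      refine ⟨a', ha', j' * j, J.mul_mem hj' hj, ?_⟩
      rw [← mul_assoc, e]; group
    set L : Subgroup G := Subgroup.closure ((A0 : Set G) ∪ (B0 : Set G)) with hL
    have hA0L : ∀ x ∈ A0, x ∈ L := fun x hx => Subgroup.subset_closure (Or.inl hx)
    have hB0L : ∀ x ∈ B0, x ∈ L := fun x hx => Subgroup.subset_closure (Or.inr hx)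
    have hPL : ∀ g ∈ L, P g ∧ P g⁻¹ := by
      intro g hg
      induction hg using Subgroup.closure_induction with
      | mem x hx =>
        rcases hx with hx | hx
        · exact ⟨hPA x hx, hPA _ (A0.inv_mem hx)⟩
        · exact ⟨hPB x hx, hPB _ (B0.inv_mem hx)⟩
      | one =>
        have h1 := hPA 1 A0.one_mem
        exact ⟨h1, by rwa [inv_one]⟩
      | mul x y _ _ hx hy => exact ⟨hPmul _ _ hx.1 hy.1, by rw [mul_inv_rev]; exact hPmul _ _ hy.2 hx.2⟩
      | inv x _ hx => exact ⟨hx.2, by rw [inv_inv]; exact hx.1⟩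
    obtain ⟨⟨s, hsA, hsA0⟩, -, -, -, hcard, -, -⟩ := hD4 G A A0 B B0 hce
    have hLcard : Nat.card A0 * Nat.card B0 ≤ Nat.card L := by
      rw [← Nat.card_prod]
      refine Nat.card_le_card_of_injective
        (fun p : A0 × B0 => (⟨(p.1 : G) * p.2, L.mul_mem (hA0L _ p.1.2) (hB0L _ p.2.2)⟩ : L)) ?_
      rintro ⟨⟨a, ha⟩, ⟨b, hb⟩⟩ ⟨⟨a', ha'⟩, ⟨b', hb'⟩⟩ h
      simp only [Subtype.mk.injEq] at h
      have h1 : a'⁻¹ * a = 1 * (b' * b⁻¹) * 1⁻¹ := by
        have : a = a' * b' * b⁻¹ := by rw [← h]; group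
        rw [this]; group
      have h2 := hD3 G A A0 B B0 hce 1 (a'⁻¹ * a) (b' * b⁻¹)
        (A.mul_mem (A.inv_mem (hA0A ha')) (hA0A ha)) (B.mul_mem (hB0B hb') (B.inv_mem (hB0B hb))) h1
      have h3 : a = a' := by
        have := inv_mul_eq_one.1 h2
        exact this.symm
      subst h3
      have h4 : b = b' := mul_left_cancel h
      subst h4
      rfl
    have hLidx : L.index ≤ 4 := by
      have h1 := L.card_mul_index
      have h2 : 0 < Nat.card L := Nat.card_pos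
      have h3 : Nat.card L * L.index ≤ Nat.card L * 4 := by
        rw [h1, hcard]; nlinarith
      exact Nat.le_of_mul_le_mul_left h3 h2
    have hC : L.normalCore ≠ ⊥ := fun h => hce.ns (hS4 G L h hLidx)
    have htop : L.normalCore ⊔ J = ⊤ := by
      by_contra hne
      exact hC ((hOVS G A A0 B B0 hce (L.normalCore ⊔ J) (hJ.le.trans le_sup_right) hne).2
        L.normalCore L.normalCore_normal le_sup_left)
    have hs : s ∈ L.normalCore ⊔ J := by rw [htop]; exact Subgroup.mem_top s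
    have := L.normalCore_normal
    have hs' : s ∈ ((L.normalCore ⊔ J : Subgroup G) : Set G) := hs
    rw [Subgroup.normal_mul] at hs'
    obtain ⟨c, hc, j, hj, hcj⟩ := Set.mem_mul.1 hs'
    obtain ⟨a', ha', j', hj', e⟩ := (hPL c (L.normalCore_le hc)).1 1 A0.one_mem j hj
    rw [one_mul, hcj] at e
    have h1 : j' = a'⁻¹ * s := by rw [e]; group
    have h2 : j' ∈ A0 := hty.1 j' hj' (by rw [h1]; exact A.mul_mem (A.inv_mem (hA0A ha')) hsA)
    exact hsA0 (by rw [e]; exact A0.mul_mem ha' h2)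
  · push Not at hall
    obtain ⟨β, hβ, hβf⟩ := hall
    have hRinv : ∀ x ∈ R, x⁻¹ = x := fun x hx => inv_eq_of_mul_eq_one_left (hR2 x hx)
    have hconjR : ∀ k ∈ B0, ∀ x ∈ R, k * x * k⁻¹ ∈ R := fun k hk x hx => hRn k (hB0J hk) x hx
    -- `R ⊓ A = {1, x0}`
    have hF1' : ∀ x ∈ R, x ∈ A → x ≠ 1 → x = x0 := by
      intro x hx hxA hx1
      have h1 := hβf x hx hxA hx1
      have h2 := hβf x0 hx0R hx0A hx01
      have hc : ∀ y ∈ R, β⁻¹ * y * β ∈ R := by
        intro y hy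
        have := hconjR β⁻¹ (B0.inv_mem hβ) y hy
        rwa [inv_inv] at this
      have h3 := hRind _ (hc x hx) _ (hc x0 hx0R) h1 h2
      have h4 : β⁻¹ * x * β * (β⁻¹ * x0 * β) = β⁻¹ * (x * x0) * β := by group
      rw [h4] at h3
      by_contra hne
      refine hβf (x * x0) (R.mul_mem hx hx0R) (A.mul_mem hxA hx0A) ?_ h3
      intro h5
      apply hne
      have := eq_inv_of_mul_eq_one_left h5
      rw [this, hRinv x0 hx0R]
    set f1 := b0 * x0 * b0⁻¹ with hf1
    have hf1R : f1 ∈ R := hconjR b0 hb0 x0 hx0R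
    have hf11 : f1 ≠ 1 := fun h => hbx (by rw [h]; exact A.one_mem)
    have hf1x0 : f1 ≠ x0 := fun h => hbx (by rw [h]; exact hx0A)
    have hR4 : ∀ y ∈ R, y = 1 ∨ y = x0 ∨ y = f1 ∨ y = x0 * f1 := by
      intro y hy
      by_cases hyA : y ∈ A
      · by_cases hy1 : y = 1
        · exact Or.inl hy1
        · exact Or.inr (Or.inl (hF1' y hy hyA hy1))
      · have h1 := hRind y hy f1 hf1R hyA hbx
        by_cases h2 : y * f1 = 1
        · right; right; left
          rw [eq_inv_of_mul_eq_one_left h2, hRinv f1 hf1R]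
        · right; right; right
          have h3 := hF1' _ (R.mul_mem hy hf1R) h1 h2
          rw [← h3, mul_assoc, hR2 f1 hf1R, mul_one]
    have hcomm : ∀ x ∈ R, ∀ y ∈ R, x * y = y * x := by
      intro x hx y hy
      have h1 := hRinv (x * y) (R.mul_mem hx hy)
      rw [mul_inv_rev, hRinv x hx, hRinv y hy] at h1
      exact h1.symm
    have hf2 : b0 * f1 * b0⁻¹ = x0 * f1 := by
      have h1 := hconjR b0 hb0 f1 hf1R
      rcases hR4 _ h1 with h | h | h | h
      · exfalso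
        apply hf11
        have : f1 = b0⁻¹ * (b0 * f1 * b0⁻¹) * b0 := by group
        rw [this, h]; group
      · exfalso
        -- `b0 ^ 2` commutes with `x0`
        have hcom : Commute (b0 ^ 2) x0 := by
          have h3 : b0 ^ 2 * x0 * (b0 ^ 2)⁻¹ = x0 := by
            calc b0 ^ 2 * x0 * (b0 ^ 2)⁻¹ = b0 * (b0 * x0 * b0⁻¹) * b0⁻¹ := by
                  rw [pow_two]; group
              _ = x0 := h
          exact mul_inv_eq_iff_eq_mul.1 h3
        have hord : ¬ 2 ∣ orderOf b0 := by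
          intro h2
          apply hodd
          have : orderOf b0 ∣ Nat.card B0 := by
            have := Subgroup.orderOf_dvd_natCard B0 hb0
            exact this
          exact h2.trans this
        have hcop : Nat.Coprime 2 (orderOf b0) := (Nat.Prime.coprime_iff_not_dvd Nat.prime_two).2 hord
        obtain ⟨m, hm⟩ := exists_pow_eq_self_of_coprime hcop
        have h4 : Commute b0 x0 := by
          rw [← hm]
          exact hcom.pow_left m
        apply hf1x0
        rw [hf1, h4.eq]; group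
      · exfalso
        apply hf1x0
        have h5 : f1 = x0 := by
          have h6 : b0⁻¹ * (b0 * f1 * b0⁻¹) * b0 = b0⁻¹ * f1 * b0 := by rw [h]
          have h7 : b0⁻¹ * f1 * b0 = x0 := by rw [hf1]; group
          rw [h7] at h6
          rw [← h6]; group
        exact h5
      · exact h
    have hex : ∀ y ∈ R, y ≠ 1 → ∃ k ∈ B0, y = k * x0 * k⁻¹ := by
      intro y hy hy1
      rcases hR4 y hy with h | h | h | h
      · exact absurd h hy1
      · exact ⟨1, B0.one_mem, by rw [h]; group⟩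
      · exact ⟨b0, hb0, h⟩
      · refine ⟨b0 * b0, B0.mul_mem hb0 hb0, ?_⟩
        rw [h, ← hf2, hf1]; group
    obtain ⟨kx, kn⟩ := key x0 hx0R hx0A hx01
    have hn : ∀ y ∈ R, y ≠ 1 → 2 * {c : G ⧸ J | y • c = c}.ncard = J.index := by
      intro y hy hy1
      obtain ⟨k, hk, rfl⟩ := hex y hy hy1
      rw [fix_conj_ncard]
      exact kn
    -- the normaliser of `R`
    have hnorm : ∀ g : G, (∀ y ∈ R, g * y * g⁻¹ ∈ R) → g ∈ J := by
      intro g hg
      have hg' : g ∈ Subgroup.normalizer (R : Set G) := Subgroup.mem_normalizer_fintype hg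
      have hJN : J ≤ Subgroup.normalizer (R : Set G) := fun j hj =>
        Subgroup.mem_normalizer_fintype (hRn j hj)
      refine hJ.max _ (hJ.le.trans hJN) ?_ hg'
      intro h
      have hnormal : R.Normal := Subgroup.normalizer_eq_top_iff.1 h
      apply hRne
      refine hce.quo R hnormal ?_
      exact Group.isSolvable_of_comm (G := R) (fun x y => Subtype.ext (hcomm x x.2 y y.2))
    have hfixJ : ∀ (g y : G), y • (g : G ⧸ J) = (g : G ⧸ J) ↔ g⁻¹ * y * g ∈ J := by
      intro g y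
      rw [MulAction.Quotient.smul_coe, smul_eq_mul, eq_comm, QuotientGroup.eq, mul_assoc]
    have hclaim : ∀ y1 ∈ R, ∀ y2 ∈ R, y1 ≠ 1 → y2 ≠ 1 → y1 ≠ y2 → ∀ c : G ⧸ J, y1 • c = c →
        y2 • c = c → c = ((1 : G) : G ⧸ J) := by
      intro y1 hy1 y2 hy2 h1 h2 h12 c hc1 hc2
      obtain ⟨g, rfl⟩ := QuotientGroup.mk_surjective c
      rw [hfixJ] at hc1 hc2
      have hallJ : ∀ y ∈ R, g⁻¹ * y * g ∈ J := by
        have hP : ∀ u v : G, g⁻¹ * u * g ∈ J → g⁻¹ * v * g ∈ J → g⁻¹ * (u * v) * g ∈ J := by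
          intro u v hu hv
          have : g⁻¹ * (u * v) * g = (g⁻¹ * u * g) * (g⁻¹ * v * g) := by group
          rw [this]; exact J.mul_mem hu hv
        have q1 := (hR4 y1 hy1).resolve_left h1
        have q2 := (hR4 y2 hy2).resolve_left h2
        obtain ⟨r1, r2⟩ := four (fun u => g⁻¹ * u * g ∈ J) hP x0 f1 (hR2 x0 hx0R) (hR2 f1 hf1R)
          (hcomm f1 hf1R x0 hx0R) y1 y2 q1 q2 h12 hc1 hc2
        intro y hy
        rcases hR4 y hy with h | h | h | h
        · rw [h, mul_one, inv_mul_cancel]; exact J.one_mem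
        · rw [h]; exact r1
        · rw [h]; exact r2
        · rw [h]; exact hP _ _ r1 r2
      have hallR : ∀ y ∈ R, g⁻¹ * y * g ∈ R := by
        intro y hy
        by_cases hy1' : y = 1
        · rw [hy1', mul_one, inv_mul_cancel]; exact R.one_mem
        obtain ⟨k, hk, rfl⟩ := hex y hy hy1'
        obtain ⟨a, ha, j, hj, e⟩ := kx (k⁻¹ * g) (by
          have : (k⁻¹ * g)⁻¹ * x0 * (k⁻¹ * g) = g⁻¹ * (k * x0 * k⁻¹) * g := by group
          rw [this]; exact hallJ _ hy)
        have h5 : g⁻¹ * (k * x0 * k⁻¹) * g = (k⁻¹ * g)⁻¹ * x0 * (k⁻¹ * g) := by group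
        rw [h5, e]
        have h6 : (a * j)⁻¹ * x0 * (a * j) = j⁻¹ * x0 * j := by
          have h7 := hce.abA _ (hF1 x0 hx0R hx0A) _ ha
          calc (a * j)⁻¹ * x0 * (a * j) = j⁻¹ * (a⁻¹ * (x0 * a)) * j := by group
            _ = j⁻¹ * (a⁻¹ * (a * x0)) * j := by rw [h7]
            _ = j⁻¹ * x0 * j := by group
        rw [h6]
        have := hRn j⁻¹ (J.inv_mem hj) x0 hx0R
        rwa [inv_inv] at this
      have hgJ : g⁻¹ ∈ J := hnorm g⁻¹ (by
        intro y hy
        rw [inv_inv]; exact hallR y hy)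
      rw [QuotientGroup.eq, mul_one]
      exact hgJ
    -- counting
    set c0 : G ⧸ J := ((1 : G) : G ⧸ J) with hc0
    have hc0fix : ∀ y ∈ R, y • c0 = c0 := by
      intro y hy
      rw [hc0, hfixJ]
      simpa using hRJ hy
    have hf3 : x0 * f1 ≠ 1 := fun h => hf1x0 (by
      have := eq_inv_of_mul_eq_one_left h
      rw [hRinv f1 hf1R] at this
      exact this.symm)
    have hf3R : x0 * f1 ∈ R := R.mul_mem hx0R hf1R
    have hd1 : x0 ≠ x0 * f1 := fun h => hf11 (by
      have h' : x0 * 1 = x0 * f1 := by rw [mul_one]; exact h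
      exact (mul_left_cancel h').symm)
    have hd2 : f1 ≠ x0 * f1 := fun h => hx01 (by
      have h' : 1 * f1 = x0 * f1 := by rw [one_mul]; exact h
      exact (mul_right_cancel h').symm)
    have n1 := hn x0 hx0R hx01
    have n2 := hn f1 hf1R hf11
    have n3 := hn _ hf3R hf3
    have fin : ∀ s : Set (G ⧸ J), s.Finite := fun s => Set.toFinite s
    have hm : ∀ y ∈ R, ({c : G ⧸ J | y • c = c} \ {c0}).ncard + 1 = {c : G ⧸ J | y • c = c}.ncard :=
      fun y hy => Set.ncard_diff_singleton_add_one (hc0fix y hy) (fin _)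
    have m1 := hm x0 hx0R
    have m2 := hm f1 hf1R
    have m3 := hm _ hf3R
    have D12 : Disjoint ({c : G ⧸ J | x0 • c = c} \ {c0}) ({c : G ⧸ J | f1 • c = c} \ {c0}) := by
      rw [Set.disjoint_left]
      rintro c ⟨hc, hcc⟩ ⟨hc', -⟩
      exact hcc (hclaim x0 hx0R f1 hf1R hx01 hf11 (Ne.symm hf1x0) c hc hc')
    have D13 : Disjoint (({c : G ⧸ J | x0 • c = c} \ {c0}) ∪ ({c : G ⧸ J | f1 • c = c} \ {c0}))
        ({c : G ⧸ J | (x0 * f1) • c = c} \ {c0}) := by
      rw [Set.disjoint_left]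
      rintro c (⟨hc, hcc⟩ | ⟨hc, hcc⟩) ⟨hc', -⟩
      · exact hcc (hclaim x0 hx0R _ hf3R hx01 hf3 hd1 c hc hc')
      · exact hcc (hclaim f1 hf1R _ hf3R hf11 hf3 hd2 c hc hc')
    have u1 := Set.ncard_union_eq D12 (fin _) (fin _)
    have u2 := Set.ncard_union_eq D13 (fin _) (fin _)
    have htot : (({c : G ⧸ J | x0 • c = c} \ {c0}) ∪ ({c : G ⧸ J | f1 • c = c} \ {c0}) ∪
        ({c : G ⧸ J | (x0 * f1) • c = c} \ {c0})).ncard ≤ ((Set.univ : Set (G ⧸ J)) \ {c0}).ncard := by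
      refine Set.ncard_le_ncard ?_ (fin _)
      rintro c ((hc | hc) | hc) <;> exact ⟨Set.mem_univ _, hc.2⟩
    have huniv : ((Set.univ : Set (G ⧸ J)) \ {c0}).ncard + 1 = J.index := by
      rw [Set.ncard_diff_singleton_add_one (Set.mem_univ _) (fin _), Set.ncard_univ]
      rfl
    omega

end Pool.Agent.H53.FKK2C
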